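import Mathlib
import Pool.Agent.H21.Grig

namespace Pool.Agent.Results.MP_bbfbdc_al.Lower

open Pool.Agent.H21.Grig

theorem result : ∃ α : ℝ, 0 < α ∧ ∃ C : ℕ, 1 ≤ C ∧
    ∀ n : ℕ, Real.exp ((n : ℝ) ^ α) ≤ (sphere (C * n) : ℝ) := by
  refine ⟨1 / 3, by norm_num, 64 * 8192 * 8192, by norm_num, fun n => ?_⟩
  rcases Nat.eq_zero_or_pos n with rfl | hn
  · have h1 := ball_le 0
    have h2 := ball_ge 0
    have h3 : (1 : ℝ) ≤ sphere 0 := by exact_mod_cast (by omega : 1 ≤ sphere 0)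
    simpa using h3
  have h1 : 8 ^ Nat.log 8 n ≤ n := Nat.pow_log_le_self 8 hn.ne'
  have h2 : n < 8 ^ (Nat.log 8 n + 1) := Nat.lt_pow_succ_log_self (by norm_num) n
  set k := Nat.log 8 n
  have h3 := ball_tower (k + 2)
  have h4 : ball (8 ^ (k + 2) * 128) ≤ ball (8192 * n) := ball_mono (by rw [pow_add]; omega)
  have h5 := ball_le_sphere (n := 8192 * n) (by omega)
  rw [← mul_assoc] at h5
  have h6 : (2 : ℝ) ^ 2 ^ (k + 2) ≤ sphere (64 * 8192 * 8192 * n) := by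
    exact_mod_cast (by omega : 2 ^ 2 ^ (k + 2) ≤ sphere (64 * 8192 * 8192 * n))
  refine le_trans ?_ h6
  have h7 : (n : ℝ) ^ (1 / 3 : ℝ) ≤ ((2 ^ (k + 1) : ℕ) : ℝ) := by
    have : (n : ℝ) ≤ ((2 ^ (k + 1) : ℕ) : ℝ) ^ 3 := by
      have : n ≤ (2 ^ (k + 1)) ^ 3 := by
        rw [← pow_mul, mul_comm, pow_mul]; exact h2.le
      exact_mod_cast this
    calc (n : ℝ) ^ (1 / 3 : ℝ) ≤ (((2 ^ (k + 1) : ℕ) : ℝ) ^ 3) ^ (1 / 3 : ℝ) :=
          Real.rpow_le_rpow (by positivity) this (by norm_num)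
      _ = _ := by
        rw [← Real.rpow_natCast, ← Real.rpow_mul (by positivity)]; norm_num
  calc Real.exp ((n : ℝ) ^ (1 / 3 : ℝ)) ≤ Real.exp ((2 ^ (k + 1) : ℕ) * 1) := by
        rw [mul_one]; exact Real.exp_le_exp.2 h7
    _ = Real.exp 1 ^ 2 ^ (k + 1) := Real.exp_nat_mul _ _
    _ ≤ 4 ^ 2 ^ (k + 1) := pow_le_pow_left₀ (Real.exp_pos 1).le
        (Real.exp_one_lt_d9.le.trans (by norm_num)) _
    _ = _ := by rw [show (4 : ℝ) = 2 ^ 2 by norm_num, ← pow_mul, pow_succ' 2 (k + 1)]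

end Pool.Agent.Results.MP_bbfbdc_al.Lower
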